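import Pool.Agent.H10.LDV.Stmts

/-!
# LDV2: large deviations of the height, second step (tools KST and CON), general exponent `T`

All rows are for a general `T ∈ [6 / 11, 3 / 5]`; the choice lemma `CHT T` for one value of `T` (a
linear programme) gives the exponent `max (1 - θ) T`.  Row `XXX` is a theorem
`xxx_thm (h1 : S_AAA) ... : S_XXX` in `Pool/Agent/H<k>/LDV2/XXX.lean` (import this file, namespace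
`Pool.LDV2`).
-/

set_option autoImplicit false

namespace Pool.LDV2

open Finset Pool.Agent.H98.ABCR Pool.SHA Pool.BL Pool.LDV

/-- energy bound for the rounding lemma `RNQ` -/
noncomputable def Phi4 (x g : ℝ) : ℝ :=
  max x (max (27 * x / 20 - 7 * g / 40) (max (73 * x / 40 - 13 * g / 20) (2 * x - g)))

/-- RNQ: rounding lemma (helper72, `H72/BL/RNQ.lean`, `Pool.BL72.rnq_thm`) -/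
def S_RNQ : Prop := ∀ (J : ℕ) (η : ℝ), 0 < η → ∃ S : ℕ, ∀ (p : ℕ → ℝ) (g : ℝ),
  (∀ e, 0 ≤ p e ∧ p e ≤ 2) → 0 ≤ g →
  VB J S p g (min (∑ e ∈ Icc 1 J, p e) (min (13 / 20 * (∑ e ∈ Icc 1 J, p e) + 7 / 40 * g)
    (min (7 / 40 * (∑ e ∈ Icc 1 J, p e) + 13 / 20 * g) g)) - η)

/-- THU: elementary Thue bound (helper48, `H48/THU/Thu.lean`) -/
def S_THU : Prop := ∀ (d : ℕ) (ε : ℝ), 2 ≤ d → 0 < ε → ∃ C : ℝ, 1 ≤ C ∧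
  ∀ (H r s : ℕ) (m : ℤ), 1 ≤ r → r ≤ H → 1 ≤ s → s ≤ H → m ≠ 0 →
  ((((Icc 1 H ×ˢ Icc 1 H).filter (fun z : ℕ × ℕ =>
    (r : ℤ) * (z.1 : ℤ) ^ d - (s : ℤ) * (z.2 : ℤ) ^ d = m)).card : ℕ) : ℝ) ≤ C * (H : ℝ) ^ ε

/-- KST: CODEGREES.  `d ≥ 2`, `E` a set of multiples of `d` and `K` a set of other exponents:
`coord v i = r w ^ d` with `w = ∏_E lay ^ (n / d)` and `r` = the rest (`tp`, exponents outside `E`; at most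
`C X ^ (ε' + τ + x_i - ∑_E p i)` values; its divisor `q = kp J K (coord v i) ≥ X ^ g` takes at most
`C X ^ (ε' + τ + ∑_K p i)` values, and for one `q` there are at most
`C X ^ (ε' + τ + x_i - ∑_E p i - ∑_K p i)` values of `r`: `r / q` is the product of the layers outside `E ∪ K`).
Fix `q`.  Graph: `J_q`, `K_q` = the values of `coord v j`, `coord v k`, edges = the triples `v` (with this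
`q`); `coord v j ≡ ± coord v k` modulo `q`.  Two values `y ≠ y'` of `coord v j` and a common neighbour
`z = coord v k`: `coord v i - coord v' i = ± (y - y') ≠ 0` (sign depending on `i`, `j`, `k` only), i.e.
`r w ^ d - r' w' ^ d = m ≠ 0`: for each of the pairs `(r, r')` at most `C X ^ ε'` solutions (`S_THU`), and
`coord v i`, `y` determine `z`.  So codegrees are at most `D = C X ^ (2 (τ + x_i - ∑_E - ∑_K) + ε')`.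
In one class `h` modulo `q` (`J_h`, `K_h`): `edges ≤ 2 |K_h| + 2 |K_h| ^ (1 / 2) |J_h| D ^ (1 / 2)`
(Cauchy-Schwarz over `K_h`: `edges ^ 2 ≤ |K_h| (edges + |J_h| ^ 2 D)`).  Sum over `h`:
`∑ |J_h| |K_h| ^ (1 / 2) ≤ (∑ |J_h| ^ 2) ^ (1 / 2) |K| ^ (1 / 2)`, the first factor by `S_ENQ`
(`≤ C X ^ (ε' + 2 τ + 2 x_j - V)`), `|K| ≤ C X ^ (ε' + τ + x_k)` (`S_CNT`).  Sum over `q`. -/
def S_KST : Prop := ∀ (J S : ℕ) (κ ε : ℝ), 1 ≤ κ → 0 < ε → ∃ C : ℝ, 1 ≤ C ∧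
  ∀ (X τ g V : ℝ) (F : Finset (ℕ × ℕ)) (i j k : Fin 3) (E K : Finset ℕ) (d : ℕ)
    (p : Fin 3 → ℕ → ℝ),
  1 ≤ X → 0 ≤ τ → 0 ≤ g → i ≠ j → i ≠ k → j ≠ k → 2 ≤ d → d ≤ J → E ⊆ Icc 1 J → K ⊆ Icc 1 J →
  Disjoint E K → (∀ e ∈ E, d ∣ e) → (∀ l e, 0 ≤ p l e ∧ p l e ≤ 2) → VB J S (p j) g V →
  (∀ v ∈ F, IsTri v ∧ hh v ≤ κ * Real.log X ∧ (∀ l, Prof J X τ (p l) (coord v l)) ∧
    X ^ g ≤ (kp J K (coord v i) : ℝ)) →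
  (F.card : ℝ) ≤ C * (X ^ (ε + 5 * τ + ∑ e ∈ K, p i e + ∑ e ∈ Icc 1 J, p k e) +
    X ^ (ε + 5 * τ + (∑ e ∈ Icc 1 J, p i e - ∑ e ∈ E, p i e) +
      (∑ e ∈ Icc 1 J, p j e - V / 2) + (∑ e ∈ Icc 1 J, p k e) / 2))

/-- CON: CONICS (helper98).  Fix the cofactors: `a = A x ^ 2`, `b = B y ^ 2`, `c = C z ^ 2` (the cost is
`∑ (x_l - p l 2)`) and the classes `y / z` modulo `A`, `x / z` modulo `B`, `x / y` modulo `C`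
(`X ^ ε` classes).  Three solutions of one class: `A B C ∣ det`.  With `B_ij = C z_i z_j - A x_i x_j
- B y_i y_j > 0`: `det ^ 2 A B C = 2 B_12 B_13 B_23`, so `B_12 B_13 B_23 ≥ (A B C) ^ 3 / 2`.
`t_i = √(a_i / c_i)` (`a ≤ b`): `B_ij ≤ √(c_i c_j) (t_i - t_j) ^ 2`; so an interval of length `η` of the
`t`-line with `(c_max η ^ 2) ^ 3 < (A B C) ^ 3 / 2` has at most two solutions: at most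
`2 + C t_max √(c / (A B C))`, and `√(a / (A B C)) = x y z / √(b c)` (dyadic in `c`, `x`, `y`, `z`). -/
def S_CON : Prop := ∀ (J : ℕ) (κ ε : ℝ), 2 ≤ J → 1 ≤ κ → 0 < ε → ∃ C : ℝ, 1 ≤ C ∧
  ∀ (X τ h : ℝ) (F : Finset (ℕ × ℕ)) (p : Fin 3 → ℕ → ℝ), 1 ≤ X → 0 ≤ τ → 0 ≤ h →
  (∀ l e, 0 ≤ p l e ∧ p l e ≤ 2) →
  (∀ v ∈ F, IsTri v ∧ hh v ≤ κ * Real.log X ∧ (∀ l, Prof J X τ (p l) (coord v l)) ∧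
    X ^ h ≤ ((v.1 + v.2 : ℕ) : ℝ)) →
  (F.card : ℝ) ≤ C * X ^ (ε + 4 * τ + (∑ l, (∑ e ∈ Icc 1 J, p l e - p l 2)) +
    max 0 (p 0 2 + p 1 2 + p 2 2 - h))

/-- one of the seven tools gives the exponent `T` (`m` = exponent of the height, `a` = index of the
smallest coordinate) -/
def Alt2 (J : ℕ) (T m : ℝ) (p : Fin 3 → ℕ → ℝ) (t : Fin 3 → ℝ) (a : Fin 3) : Prop :=
  (∃ j k, j ≠ k ∧ ∑ e ∈ Icc 1 J, p j e + ∑ e ∈ Icc 1 J, p k e ≤ T) ∨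
  (∃ (i j k : Fin 3) (e f : ℕ), i ≠ j ∧ i ≠ k ∧ j ≠ k ∧ e ∈ Icc 2 J ∧ f ∈ Icc 2 J ∧
    (∑ n ∈ Icc 1 J, p i n) / 2 + (∑ n ∈ Icc 1 J, p j n - p j e / 2) +
      (∑ n ∈ Icc 1 J, p k n - p k f / 2) ≤ T) ∨
  (∃ (i j k : Fin 3) (K : Finset ℕ), i ≠ j ∧ i ≠ k ∧ j ≠ k ∧ K ⊆ Icc 1 J ∧
    ∑ e ∈ K, p i e + (Phi4 (∑ e ∈ Icc 1 J, p j e) (t i + ∑ e ∈ K, (e : ℝ) * p i e) +
      Phi4 (∑ e ∈ Icc 1 J, p k e) (t i + ∑ e ∈ K, (e : ℝ) * p i e)) / 2 ≤ T) ∨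
  (∃ (i j k : Fin 3) (K : Finset ℕ) (e : ℕ), i ≠ j ∧ i ≠ k ∧ j ≠ k ∧ K ⊆ Icc 1 J ∧
    e ∈ Icc 1 J ∧ ∑ n ∈ K, p i n + (∑ n ∈ Icc 1 J, p j n - p j e) +
      (∑ n ∈ Icc 1 J, p k n - p k e) +
      max 0 (p j e + p k e - (t i + ∑ n ∈ K, (n : ℝ) * p i n)) ≤ T) ∨
  (∃ (k l : Fin 3) (e : ℕ), a ≠ k ∧ a ≠ l ∧ k ≠ l ∧ e ∈ Icc 1 J ∧
    ∑ n ∈ Icc 1 J, p k n + ∑ n ∈ Icc 1 J, p l n -
      min (p l e) (m - (t a + ∑ n ∈ Icc 1 J, (n : ℝ) * p a n)) ≤ T) ∨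
  (∃ (i j k : Fin 3) (E K : Finset ℕ) (d : ℕ), i ≠ j ∧ i ≠ k ∧ j ≠ k ∧ 2 ≤ d ∧ d ≤ J ∧
    E ⊆ Icc 1 J ∧ K ⊆ Icc 1 J ∧ Disjoint E K ∧ (∀ e ∈ E, d ∣ e) ∧
    ∑ e ∈ K, p i e + ∑ e ∈ Icc 1 J, p k e ≤ T ∧
    (∑ e ∈ Icc 1 J, p i e - ∑ e ∈ E, p i e) +
      (Phi4 (∑ e ∈ Icc 1 J, p j e) (t i + ∑ e ∈ K, (e : ℝ) * p i e) +
        ∑ e ∈ Icc 1 J, p k e) / 2 ≤ T) ∨
  (∑ l, (∑ e ∈ Icc 1 J, p l e - p l 2)) + max 0 (p 0 2 + p 1 2 + p 2 2 - m) ≤ T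

/-- the choice lemma for heights `≥ X ^ (1 - T)` -/
def CHT (T : ℝ) : Prop := ∀ (J : ℕ) (m : ℝ) (p : Fin 3 → ℕ → ℝ) (t : Fin 3 → ℝ) (a : Fin 3),
  5 ≤ J → 1 - T ≤ m → (∀ l e, 0 ≤ p l e) → (∀ l, 0 ≤ t l) → ∑ l, ∑ e ∈ Icc 1 J, p l e ≤ 1 →
  (∀ i, i ≠ a → t i + ∑ e ∈ Icc 1 J, (e : ℝ) * p i e = m) →
  t a + ∑ e ∈ Icc 1 J, (e : ℝ) * p a e ≤ m → Alt2 J T m p t a

/-- CHU: CHOICE LEMMA, `1 / 3 ≤ m ≤ 5 / 11`, exponent `1 - m` (as `Pool.LDV.S_CHL`, whose proof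
works for `m ≤ 5 / 11`) -/
def S_CHU : Prop := ∀ (J : ℕ) (m : ℝ) (p : Fin 3 → ℕ → ℝ) (t : Fin 3 → ℝ) (a : Fin 3), 5 ≤ J →
  1 / 3 ≤ m → m ≤ 5 / 11 → (∀ l e, 0 ≤ p l e) → (∀ l, 0 ≤ t l) →
  ∑ l, ∑ e ∈ Icc 1 J, p l e ≤ 1 →
  (∀ i, i ≠ a → t i + ∑ e ∈ Icc 1 J, (e : ℝ) * p i e = m) →
  t a + ∑ e ∈ Icc 1 J, (e : ℝ) * p a e ≤ m → Alt2 J (1 - m) m p t a

/-- CHV: choice lemma with slack (model: `S_CHS`, `H31/LDV/CHS.lean`): for `m ≤ 1 - T` use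
`m' = max m (max_l G'_l) ≤ 1 - T + η`: if `m' ≤ 1 - T` `S_CHU`; if `m' > 1 - T` then `CHT T` (exponent
`T ≤ 1 - m + η`).  `Phi4 x g ≤ Phi4 x (g + y) + y`. -/
def S_CHV : Prop := ∀ T : ℝ, 6 / 11 ≤ T → T ≤ 3 / 5 → CHT T →
  ∀ (J : ℕ) (κ m η : ℝ) (p : Fin 3 → ℕ → ℝ) (t : Fin 3 → ℝ) (a : Fin 3),
  5 ≤ J → 1 ≤ κ → 1 / 3 ≤ m → m ≤ κ → 0 ≤ η → η ≤ 1 / 100 →
  (∀ l e, 0 ≤ p l e) → (∀ l, 0 ≤ t l) → ∑ l, ∑ e ∈ Icc 1 J, p l e ≤ 1 + η →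
  (∀ i, i ≠ a → m - η ≤ t i + ∑ e ∈ Icc 1 J, (e : ℝ) * p i e ∧
    t i + ∑ e ∈ Icc 1 J, (e : ℝ) * p i e ≤ m + η) →
  t a + ∑ e ∈ Icc 1 J, (e : ℝ) * p a e ≤ m + η →
  Alt2 J (max (1 - m) T + 20 * (κ + 1) * η) m p t a

/-- the bound `X ^ max (1 - m) T` in a window of the height -/
def WB (T : ℝ) : Prop := ∀ κ ε : ℝ, 1 ≤ κ → 0 < ε → ∃ δ C : ℝ, 0 < δ ∧ 1 ≤ C ∧
  ∀ (X m : ℝ) (F : Finset (ℕ × ℕ)) (a : Fin 3), 1 ≤ X → 1 / 3 ≤ m → m ≤ κ → a ≠ 2 →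
  (∀ v ∈ F, IsTri v ∧ (RR v : ℝ) ≤ X ∧ m * Real.log X ≤ hh v ∧
    hh v ≤ (m + δ) * Real.log X ∧ ∀ i, coord v a ≤ coord v i) →
  (F.card : ℝ) ≤ C * X ^ (max (1 - m) T + ε)

/-- LDX: one window (model: `H65/LDV/LDC.lean`, with two more alternatives: `S_KST`, `S_CON`
(`h = max 0 (m - η)` or `h = m`)) -/
def S_LDX : Prop := ∀ T : ℝ, 6 / 11 ≤ T → T ≤ 3 / 5 → CHT T → WB T

/-- LWX: polynomial heights (model: `S_LDW`) -/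
def S_LWX : Prop := ∀ T : ℝ, 6 / 11 ≤ T → T ≤ 3 / 5 → WB T →
  ∀ θ κ ε : ℝ, 1 / 3 ≤ θ → θ ≤ κ → 1 ≤ κ → 0 < ε → ∃ C : ℝ, 1 ≤ C ∧
  ∀ (X : ℝ) (F : Finset (ℕ × ℕ)), 1 ≤ X →
  (∀ v ∈ F, IsTri v ∧ (RR v : ℝ) ≤ X ∧ θ * Real.log X ≤ hh v ∧ hh v ≤ κ * Real.log X) →
  (F.card : ℝ) ≤ C * X ^ (max (1 - θ) T + ε)

/-- LRX: `c ≥ R ^ θ` (model: `S_LDR`) -/
def S_LRX : Prop := ∀ T : ℝ, 6 / 11 ≤ T → T ≤ 3 / 5 → WB T →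
  ∀ θ κ ε : ℝ, 1 / 3 ≤ θ → θ ≤ κ → 1 ≤ κ → 0 < ε → ∃ C : ℝ, 1 ≤ C ∧
  ∀ (X : ℝ) (F : Finset (ℕ × ℕ)), 1 ≤ X →
  (∀ v ∈ F, IsTri v ∧ (RR v : ℝ) ≤ X ∧ θ * Real.log (RR v) ≤ hh v ∧
    hh v ≤ κ * Real.log (RR v)) →
  (F.card : ℝ) ≤ C * X ^ (max (1 - θ) T + ε)

/-- LHX: by height (model: `S_LDH`) -/
def S_LHX : Prop := ∀ T : ℝ, 6 / 11 ≤ T → T ≤ 3 / 5 → WB T →
  ∀ lam ε : ℝ, 0 < lam → lam ≤ 3 → 0 < ε → ∃ C : ℝ, 1 ≤ C ∧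
  ∀ (H : ℝ) (F : Finset (ℕ × ℕ)), 1 ≤ H →
  (∀ v ∈ F, IsTri v ∧ ((v.1 + v.2 : ℕ) : ℝ) ≤ H ∧
    (RR v : ℝ) ≤ ((v.1 + v.2 : ℕ) : ℝ) ^ lam) →
  (F.card : ℝ) ≤ C * H ^ (max (lam - 1) (T * lam) + ε)

end Pool.LDV2
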