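import Pool.Agent.H10.LDV.All
import Pool.Agent.H65.LDV3.LDY
import Pool.Agent.H67.LDV2.CHU
import Pool.Agent.H48.LDV2.KST
import Pool.Agent.H98.KON.Ldv
import Pool.Agent.H80.LDV2.LWX
import Pool.Agent.H37.LDV2.LRX
import Pool.Agent.H88.LDV2.LHX

/-! # LDV2: assembly for a general exponent `T` -/

set_option autoImplicit false

namespace Pool.LDV2

open Pool.BL Pool.LDV

theorem all_KST : S_KST := kst_thm all_ENQ lay_thm Pool.RIC.all_CNT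

theorem all_CON : S_CON :=
  con_thm Pool.MED.rts_thm lay_thm Pool.RIC.all_CNT Pool.FEX.omb_thm

/-- the window bound from a choice lemma -/
theorem wb_of3 {T : ℝ} (h1 : 6 / 11 ≤ T) (h2 : T ≤ 3 / 5) (h : Pool.LDV3.CHT3 T) : WB T :=
  Pool.LDV3.ldy_thm lay_thm all_TTL all_FTL all_CTL all_LTL all_RTL all_KST all_CON chu_thm T h1 h2 h

theorem wb_of {T : ℝ} (h1 : 6 / 11 ≤ T) (h2 : T ≤ 3 / 5)
    (h : ∀ (J : ℕ) (m : ℝ) (p : Fin 3 → ℕ → ℝ) (t : Fin 3 → ℝ) (a : Fin 3),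
      5 ≤ J → T ≤ m → (∀ l e, 0 ≤ p l e) → (∀ l, 0 ≤ t l) →
      ∑ l, ∑ e ∈ Finset.Icc 1 J, p l e ≤ 1 →
      (∀ i, i ≠ a → t i + ∑ e ∈ Finset.Icc 1 J, (e : ℝ) * p i e = m) →
      t a + ∑ e ∈ Finset.Icc 1 J, (e : ℝ) * p a e ≤ m → Alt2 J T m p t a) : WB T :=
  wb_of3 h1 h2 fun J m p t a hJ hm hp ht hs hi ha =>
    Pool.LDV3.alt3_of_alt2 hp ht (h J m p t a hJ hm hp ht hs hi ha)

/-- `c ≥ R ^ θ`, heights `≤ R ^ κ` -/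
theorem lr_of {T : ℝ} (h1 : 6 / 11 ≤ T) (h2 : T ≤ 3 / 5) (h : WB T) :
    ∀ θ κ ε : ℝ, 1 / 3 ≤ θ → θ ≤ κ → 1 ≤ κ → 0 < ε → ∃ C : ℝ, 1 ≤ C ∧
    ∀ (X : ℝ) (F : Finset (ℕ × ℕ)), 1 ≤ X →
    (∀ v ∈ F, Pool.Agent.H98.ABCR.IsTri v ∧ (Pool.Agent.H98.ABCR.RR v : ℝ) ≤ X ∧
      θ * Real.log (Pool.Agent.H98.ABCR.RR v) ≤ Pool.SHA.hh v ∧
      Pool.SHA.hh v ≤ κ * Real.log (Pool.Agent.H98.ABCR.RR v)) →
    (F.card : ℝ) ≤ C * X ^ (max (1 - θ) T + ε) :=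
  lrx_thm lwx_thm T h1 h2 h

end Pool.LDV2
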