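import Pool.Agent.H10.LDV2.TreeS

/-! # LDV2: list of the tools used by the trees -/

set_option autoImplicit false

namespace Pool.LDV2.Tree

/-- tools -/
def ds : List D :=
  [.L 1 [2, 3, 4, 9] 1,
    .L 0 [3, 4, 9] 4,
    .L 1 [2, 3, 4, 9] 2,
    .L 2 [2, 3, 4, 9] 2,
    .L 2 [4] 2,
    .L 2 [3, 4, 9] 1,
    .L 1 [2, 3, 4, 9] 3,
    .L 2 [3, 4, 9] 3,
    .L 1 [2, 3] 3,
    .L 2 [4] 4,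
    .L 1 [9] 1,
    .L 1 [4, 9] 4,
    .L 1 [9] 2,
    .L 0 [9] 4,
    .L 0 [2, 3, 9] 3,
    .C 1 [4, 9],
    .L 1 [2, 9] 3,
    .C 1 [9],
    .R 2 4,
    .L 1 [9] 3,
    .L 0 [2, 4, 9] 3,
    .L 0 [4, 9] 4,
    .L 0 [4, 9] 2,
    .L 2 [4] 3,
    .L 0 [4, 9] 3,
    .L 1 [3, 9] 3,
    .L 0 [2, 4, 9] 4,
    .L 0 [3, 4] 1,
    .C 1 [3, 9],
    .K 1 [3] [9] 3 false,
    .L 0 [3] 3,
    .L 0 [3, 4, 9] 3,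
    .C 2 [4],
    .L 0 [2, 3, 4, 9] 3,
    .L 1 [3] 4,
    .L 0 [9] 3,
    .K 2 [2, 4] [] 2 false,
    .L 0 [4] 3,
    .C 2 [4, 9],
    .C 1 [3, 4],
    .K 1 [3] [2] 3 false,
    .R 1 3,
    .L 1 [3] 1,
    .L 1 [4, 9] 2,
    .L 0 [9] 2,
    .C 0 [9],
    .C 1 [3],
    .L 1 [3, 4] 3,
    .K 2 [2, 4] [9] 2 false,
    .C 1 [4]] ++
  [.L 1 [3, 4, 9] 4,
    .L 1 [2, 3, 9] 2,
    .L 1 [3, 9] 2,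
    .K 2 [2, 4] [3, 9] 2 false,
    .K 1 [2, 4] [3] 2 false,
    .L 1 [3, 9] 4,
    .L 0 [3, 9] 1,
    .C 2 [3, 4, 9],
    .C 2 [9],
    .L 1 [3, 4] 2,
    .C 0 [3, 4, 9],
    .C 1 [2, 4],
    .L 1 [4] 4,
    .L 1 [2, 4] 4,
    .C 0 [4],
    .L 2 [3, 9] 3,
    .L 1 [4, 9] 1,
    .L 0 [2, 4] 3,
    .L 2 [3, 9] 4,
    .K 0 [2, 4] [9] 2 true,
    .L 1 [2, 9] 1,
    .L 0 [2, 4] 2,
    .L 0 [3, 4, 9] 2,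
    .L 1 [4] 2,
    .C 2 [3, 9],
    .L 0 [3, 9] 4,
    .L 2 [9] 1,
    .L 1 [3, 4] 1,
    .L 0 [4] 2,
    .L 1 [4] 1,
    .L 2 [3] 4,
    .L 2 [4, 9] 1,
    .C 0 [4, 9],
    .L 2 [9] 3,
    .L 0 [2, 4] 1,
    .C 1 [2, 9],
    .L 1 [3] 3,
    .R 1 4,
    .L 0 [2, 4, 9] 2,
    .L 1 [2, 3, 9] 1,
    .L 1 [3] 2,
    .C 0 [2, 4, 9],
    .C 1 [3, 4, 9],
    .L 0 [3, 4] 2,
    .L 0 [2, 3] 2,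
    .R 2 2,
    .L 2 [2, 4, 9] 4,
    .C 2 [2, 4, 9],
    .L 2 [2, 9] 4,
    .K 1 [2, 4] [3, 9] 2 false] ++
  [.K 0 [2, 4] [3] 2 false,
    .K 2 [3] [2, 4, 9] 3 true,
    .L 2 [3] 3,
    .L 2 [9] 4,
    .L 0 [3, 9] 3,
    .L 1 [2, 4, 9] 1,
    .L 1 [2] 2,
    .L 0 [3, 4] 3,
    .L 1 [2, 9] 4,
    .L 2 [4, 9] 4,
    .L 1 [4] 3,
    .K 2 [2, 4] [3, 9] 2 true,
    .L 1 [2, 4] 2,
    .L 1 [3, 9] 1,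
    .C 1 [2, 4, 9],
    .L 0 [2, 4, 9] 1,
    .C 0 [3, 4],
    .L 0 [2, 3, 4] 2,
    .L 1 [2] 1,
    .L 2 [3, 9] 1,
    .L 1 [4, 9] 3,
    .K 2 [3] [2] 3 true,
    .L 2 [3] 1,
    .L 1 [3, 4, 9] 3,
    .L 1 [2, 3] 1,
    .K 0 [3] [2, 4, 9] 3 true,
    .K 0 [3] [4, 9] 3 false,
    .C 2 [3, 4],
    .K 0 [3] [4, 9] 3 true,
    .C 2 [3],
    .L 2 [3, 4, 9] 4,
    .L 1 [2, 3, 9] 4,
    .L 2 [2, 3, 9] 4,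
    .L 1 [9] 4,
    .L 2 [4] 1,
    .L 2 [4, 9] 3,
    .K 1 [2, 4] [9] 2 false,
    .K 2 [3] [2, 4] 3 true,
    .L 0 [9] 1,
    .R 2 3,
    .L 0 [2, 3, 4] 3,
    .K 1 [2, 4] [9] 2 true,
    .L 2 [2, 9] 3,
    .K 2 [2, 4] [] 2 true,
    .L 2 [2] 3,
    .L 2 [2, 4, 9] 1,
    .L 0 [4, 9] 1,
    .L 2 [4, 9] 2,
    .K 0 [4] [9] 4 false,
    .L 0 [3, 4, 9] 1] ++
  [.L 1 [3, 4, 9] 1,
    .N,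
    .L 2 [9] 2,
    .K 0 [3] [9] 3 false,
    .L 0 [3, 9] 2,
    .L 0 [3] 2,
    .K 2 [2, 4] [3] 2 false,
    .L 1 [3, 4, 9] 2,
    .L 0 [2, 3, 4, 9] 2,
    .L 2 [2, 9] 1,
    .K 2 [3] [2, 4] 3 false,
    .L 2 [3, 4, 9] 2,
    .K 1 [2, 4] [] 2 false,
    .C 1 [2, 3, 4, 9],
    .R 2 1,
    .L 1 [2, 4, 9] 2,
    .L 2 [3, 4] 2,
    .K 2 [3] [4, 9] 3 true,
    .L 0 [2] 3,
    .L 0 [2] 1,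
    .K 0 [2, 4] [3, 9] 2 true,
    .L 2 [2, 3, 4] 3,
    .L 2 [3, 9] 2,
    .C 2 [2, 3, 4, 9],
    .L 2 [3, 4] 1,
    .C 1 [2, 3],
    .L 0 [2, 9] 3,
    .L 2 [2, 3, 9] 2,
    .C 2 [2, 3, 9],
    .L 2 [3] 2,
    .L 0 [2] 2,
    .C 0 [2],
    .L 2 [2, 3, 9] 3,
    .R 1 2,
    .R 1 1,
    .L 1 [2] 3,
    .L 1 [2, 3, 4] 3,
    .L 0 [8] 4,
    .K 0 [8] [] 2 false,
    .L 0 [8] 1,
    .L 1 [2, 4] 3,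
    .L 2 [2, 9] 2,
    .K 1 [2, 4] [3, 9] 2 true,
    .L 2 [2, 4, 9] 3,
    .L 0 [8] 3,
    .K 1 [3] [2, 4, 9] 3 false,
    .K 0 [8] [3, 4, 9] 2 true,
    .K 2 [3] [] 3 false,
    .L 0 [4, 8] 3,
    .L 0 [2, 8] 3] ++
  [.K 0 [8] [9] 2 false,
    .K 0 [8] [3, 4] 2 true,
    .K 0 [8] [9] 2 true,
    .L 0 [3, 8] 3,
    .K 1 [2, 4] [3] 2 true,
    .K 2 [3] [4] 3 true,
    .L 0 [8, 9] 3,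
    .C 2 [2, 9],
    .K 2 [3] [2] 3 false,
    .L 0 [3, 8, 9] 3,
    .K 2 [3] [2, 9] 3 false,
    .K 2 [3] [2, 9] 3 true,
    .K 2 [2, 4] [3] 2 true,
    .K 1 [3] [4] 3 true,
    .L 2 [2, 3, 4, 9] 3,
    .K 1 [3] [2] 3 true,
    .R 1 8,
    .L 1 [8] 4,
    .L 0 [2, 3, 9] 4,
    .L 1 [8] 3,
    .C 0 [3],
    .L 1 [3, 8, 9] 3,
    .K 0 [2, 4] [3] 2 true,
    .L 1 [8, 9] 3,
    .C 2 [2, 4],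
    .L 0 [2, 9] 4,
    .K 2 [2, 4] [9] 2 true,
    .L 1 [4, 8] 3,
    .L 0 [4] 1,
    .L 1 [3, 4, 8] 3,
    .K 2 [3] [4] 3 false,
    .L 2 [2, 3] 4,
    .K 2 [3] [9] 3 true,
    .K 0 [3] [2] 3 true,
    .K 0 [3] [2] 3 false,
    .R 2 8,
    .L 2 [8] 4,
    .K 2 [8] [3] 2 true,
    .L 2 [4, 8, 9] 1,
    .L 0 [2, 9] 2,
    .L 2 [2, 4, 8, 9] 3,
    .K 1 [3] [] 3 false,
    .L 1 [2, 4, 9] 3,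
    .L 2 [3, 8] 3,
    .L 2 [8] 3,
    .L 1 [2, 4, 9] 4,
    .L 2 [4, 8] 3,
    .K 2 [8] [4] 2 false,
    .K 2 [8] [9] 2 false,
    .K 0 [2, 4] [9] 2 false] ++
  [.K 1 [3] [4] 3 false,
    .K 1 [4] [2, 3, 9] 4 false,
    .K 0 [8] [] 2 true,
    .K 0 [3] [4] 3 false,
    .K 0 [3] [4] 3 true,
    .K 0 [2, 4] [3, 9] 2 false,
    .K 2 [8] [] 2 true,
    .K 1 [8] [] 2 true,
    .K 1 [8] [9] 2 false,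
    .K 1 [8] [2, 9] 2 false,
    .K 0 [8] [4] 2 false,
    .K 0 [8] [2, 3, 4, 9] 2 true,
    .K 1 [8] [9] 2 true]

theorem ds_ok : ds.all (val 4) = true := by decide +kernel

end Pool.LDV2.Tree
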