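import Pool.Agent.H10.LDV2.Stmts

/-!
# LDV2: the label system and the reduction of the choice lemma to it

Rows: CHW (reduction), BLK (linear programme for a set of exponents `≥ 5`), LPG (tree, machine).
-/

set_option autoImplicit false

namespace Pool.LDV2

open Finset Pool.Agent.H98.ABCR Pool.SHA Pool.BL Pool.LDV

/-- labels: `1, .., E` = layers, `8` = one big layer of exponent `> E` (or nothing), `9` = the other
exponents `> E` -/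
def labs (E : ℕ) : Finset ℕ := insert 8 (insert 9 (Icc 1 E))

/-- the label system: all seven tools fail (`a` has index `0`) -/
structure LS (E : ℕ) (T h m : ℝ) (c g : Fin 3 → ℕ → ℝ) (x : Fin 3 → ℝ) : Prop where
  hc : ∀ l n, 0 ≤ c l n
  hg : ∀ l n, 0 ≤ g l n
  hx : ∀ l, x l = ∑ n ∈ Icc 1 E, c l n + c l 8 + c l 9
  ge : ∀ l, ∀ n ∈ Icc 1 E, g l n = (n : ℝ) * c l n
  g8 : ∀ l, ((E : ℝ) + 1) * c l 8 ≤ g l 8
  g9 : ∀ l, ((E : ℝ) + 1) * c l 9 ≤ g l 9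
  h9 : ∀ l, c l 9 ≤ h
  hb : ∀ l, (c l 8 = 0 ∧ g l 8 = 0) ∨ T - 1 / 2 + x l / 2 < c l 8
  hs : x 0 + x 1 + x 2 ≤ 1
  ht : ∀ j k, j ≠ k → T < x j + x k
  hm : T ≤ m
  G0 : ∀ l, ∑ n ∈ Icc 1 E, g l n + g l 8 + g l 9 ≤ m
  G1 : ∀ l, l ≠ 0 → ∑ n ∈ Icc 1 E, g l n + g l 8 + g l 9 = m
  F : ∀ (i j k : Fin 3) (e f : ℕ), i ≠ j → i ≠ k → j ≠ k → e ∈ insert 8 (Icc 2 E) →
    f ∈ insert 8 (Icc 2 E) → T < x i / 2 + (x j - c j e / 2) + (x k - c k f / 2)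
  C : ∀ (i j k : Fin 3) (K : Finset ℕ), i ≠ j → i ≠ k → j ≠ k → K ⊆ labs E →
    T < ∑ n ∈ K, c i n + (Phi4 (x j) (∑ n ∈ K, g i n) + Phi4 (x k) (∑ n ∈ K, g i n)) / 2
  L : ∀ (i j k : Fin 3) (K : Finset ℕ) (e : ℕ), i ≠ j → i ≠ k → j ≠ k → K ⊆ labs E →
    e ∈ Icc 1 E → T < ∑ n ∈ K, c i n + (x j - c j e) + (x k - c k e) +
      max 0 (c j e + c k e - ∑ n ∈ K, g i n)
  R : ∀ (l : Fin 3) (e : ℕ), l ≠ 0 → e ∈ insert 8 (Icc 1 E) →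
    T < x 1 + x 2 - min (c l e) (m - (∑ n ∈ Icc 1 E, g 0 n + g 0 8 + g 0 9))
  K : ∀ (i j k : Fin 3) (D K : Finset ℕ) (d : ℕ), i ≠ j → i ≠ k → j ≠ k → 2 ≤ d →
    ((D ⊆ Icc 1 E ∧ ∀ n ∈ D, d ∣ n) ∨ D = {8}) → K ⊆ labs E → Disjoint D K →
    T < ∑ n ∈ K, c i n + x k ∨
      T < (x i - ∑ n ∈ D, c i n) + (Phi4 (x j) (∑ n ∈ K, g i n) + x k) / 2
  N : T < ∑ l, (x l - c l 2) + max 0 (c 0 2 + c 1 2 + c 2 2 - m)

/-- LPG: the label system has no solution (tree of linear programmes, machine) -/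
def S_LPG (E : ℕ) (T h : ℝ) : Prop := ∀ (m : ℝ) (c g : Fin 3 → ℕ → ℝ) (x : Fin 3 → ℝ),
  LS E T h m c g x → False

/-- BLK: linear programme for a set of exponents `≥ 5` of cost `k` (split the two `Phi4`: 16 cases,
`linarith`) -/
def S_BLK : Prop := ∀ x xj xk k g : ℝ, 0 ≤ x → 0 ≤ xj → 0 ≤ xk → x + xj + xk ≤ 1 →
  7 / 12 < x + xj → 7 / 12 < x + xk → 7 / 12 < xj + xk → 2 / 25 ≤ k → k ≤ 1 / 12 + x / 2 →
  5 * k ≤ g → k + (Phi4 xj g + Phi4 xk g) / 2 ≤ 7 / 12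

/-- the choice lemma for `m ≥ T` (`Pool.LDV2.CHH` of helper98) -/
def CHG (T : ℝ) : Prop := ∀ (J : ℕ) (m : ℝ) (p : Fin 3 → ℕ → ℝ) (t : Fin 3 → ℝ) (a : Fin 3),
  5 ≤ J → T ≤ m → (∀ l e, 0 ≤ p l e) → (∀ l, 0 ≤ t l) → ∑ l, ∑ e ∈ Icc 1 J, p l e ≤ 1 →
  (∀ i, i ≠ a → t i + ∑ e ∈ Icc 1 J, (e : ℝ) * p i e = m) →
  t a + ∑ e ∈ Icc 1 J, (e : ℝ) * p a e ≤ m → Alt2 J T m p t a

/-- CHW: REDUCTION TO THE LABELS, `T = 7 / 12`, layers `1, .., 4` (model: `H44/LDV/CHM.lean`).  `x_l` =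
the costs; if the first alternative fails then `1 / 6 < x_l < 5 / 12`; `ρ_l = 1 / 12 + x_l / 2 > 1 / 6`.
`H_l = Icc 5 J`.  A subset of `H_l` of cost in `[2 / 25, ρ_l]`: third alternative by `S_BLK`.  Otherwise, by
`Pool.BL.S_SUB` (`θ = 2 / 25`) the elements of `H_l` of cost `≤ ρ_l` have total cost `< 2 / 25`; at most
one element `e0` has cost `> ρ_l > x_l / 2`.  Labels: `c l n = p l n` (`n ≤ 4`), `c l 8 = p l e0` (or `0`),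
`c l 9` = cost of the rest of `H_l`, `g l 9 = t l + ∑ e p` over the rest.  If all alternatives fail the
label system is satisfied (after a permutation `σ 0 = a`): `Phi4` and `max 0 (p - g)` decrease in `g`,
so `t` may be dropped when `9 ∉ K`; label `8` absent: use `c = 0` (in `F` any exponent, e.g. `2`; in
`K` with `D = {8}`: `E = ∅`, `d = 2`; `R`: `min 0 _ ≤ 0`); `D = {8}`: `E = {e0}`, `d = e0`; for
`D ⊆ Icc 1 4`: `E = D`, and `d ≤ 4` if `D` is not empty (`D = ∅`: `d = 2`). -/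
def S_CHW : Prop := S_LPG 4 (7 / 12) (2 / 25) → CHG (7 / 12)

end Pool.LDV2
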