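import Pool.Agent.H10.LDV2.All
import Pool.Agent.H10.LDV.Final
import Pool.Agent.H21.LDV2.Lpy
import Pool.Agent.H44.LDV2.CHY

/-! # LDV2: `T = 4 / 7` -/

set_option autoImplicit false

namespace Pool.LDV2

open Pool.BL Pool.LDV

theorem chg47 : CHG (4 / 7) := chy_thm sub_thm 3 (4 / 7) (by norm_num) (by norm_num) (by norm_num) Y3.lpy

theorem wb47 : WB (4 / 7) := wb_of (by norm_num) (by norm_num) chg47

/-- `#{R ≤ X, c ≥ R ^ θ} ≤ C X ^ (max (1 - θ) (4 / 7) + ε)`, polynomial heights -/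
theorem lr47 : Pool.LDV.Final.LR (4 / 7) := lr_of (by norm_num) (by norm_num) wb47

end Pool.LDV2
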