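import Pool.Agent.H10.LDV2.TbrFin

set_option autoImplicit false

namespace Pool.Agent.H10.LDV2.Tbr

/-- The radical `R` of `a b (a + b)`, for `t = (a, b)`. -/
def R (t : ℕ × ℕ) : ℕ := ∏ p ∈ (t.1 * t.2 * (t.1 + t.2)).primeFactors, p

/-- The pairs `(a, b)` of coprime positive integers with `R ≤ X`. -/
def Tri (X : ℝ) : Set (ℕ × ℕ) :=
  {t | 0 < t.1 ∧ 0 < t.2 ∧ Nat.Coprime t.1 t.2 ∧ (R t : ℝ) ≤ X}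

/-- Those for which one of the radicals of `a`, `b`, `a + b` is at most `Y`. -/
def TriY (X Y : ℝ) : Set (ℕ × ℕ) :=
  {t | t ∈ Tri X ∧ (((∏ p ∈ t.1.primeFactors, p : ℕ) : ℝ) ≤ Y ∨
    ((∏ p ∈ t.2.primeFactors, p : ℕ) : ℝ) ≤ Y ∨ ((∏ p ∈ (t.1 + t.2).primeFactors, p : ℕ) : ℝ) ≤ Y)}

/-- The local factor of the constant. -/
noncomputable def L (p : Nat.Primes) : ℝ := (1 - 1 / (p : ℝ)) *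
  (1 + 1 / (p : ℝ) + 3 * (p : ℝ) ^ (-(4 / 3) : ℝ) + 3 * (p : ℝ) ^ (-(5 / 3) : ℝ))

/-- The constant: half the beta value `B(1/3, 1/3)` times an Euler product. -/
noncomputable def C0 : ℝ := Real.Gamma (1 / 3) ^ 2 / (2 * Real.Gamma (2 / 3)) * ∏' p, L p

/-- The distribution of all abc triples ordered by their radical: the number of triples of radical
at most `X` is `C0 X ^ (2 / 3) + O (X ^ (2 / 3 - c))`, with a limit law `G` for their height; the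
number of those with `a + b ≥ R ^ θ` is `X ^ (1 - θ + o(1))` for `1 / 3 ≤ θ ≤ 3 / 7` and at most
`X ^ (4 / 7 + o(1))` for `θ ≥ 3 / 7`; and few have one small radical. -/
theorem result :
    (Multipliable L ∧ 0 < C0 ∧ ∃ (G : ℝ → ℝ) (c C : ℝ), 0 < c ∧
      (∀ X : ℝ, 1 ≤ X → (Tri X).Finite ∧
        |((Tri X).ncard : ℝ) - C0 * X ^ (2 / 3 : ℝ)| ≤ C * X ^ (2 / 3 - c) ∧
        ∀ lam : ℝ, 0 < lam →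
          |(({t | t ∈ Tri X ∧ ((t.1 + t.2 : ℕ) : ℝ) ≤ lam * X ^ (1 / 3 : ℝ)} :
            Set (ℕ × ℕ)).ncard : ℝ) - G lam * X ^ (2 / 3 : ℝ)| ≤ C * X ^ (2 / 3 - c)) ∧
      ∀ θ : ℝ, 0 ≤ θ → θ < 1 → ∃ C' : ℝ, ∀ lam : ℝ, 0 < lam → |G lam - C0| ≤ C' * lam ^ (-θ)) ∧
    ((∀ θ ε : ℝ, 1 / 3 ≤ θ → 0 < ε → ∃ C : ℝ, ∀ X : ℝ, 1 ≤ X →
      (({t | t ∈ Tri X ∧ (R t : ℝ) ^ θ ≤ ((t.1 + t.2 : ℕ) : ℝ)} : Set (ℕ × ℕ)).ncard : ℝ) ≤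
        C * X ^ (max (1 - θ) (4 / 7) + ε)) ∧
    ∀ θ : ℝ, 1 / 3 ≤ θ → θ < 1 → ∃ c X₀ : ℝ, 0 < c ∧ ∀ X : ℝ, X₀ ≤ X →
      c * X ^ (1 - θ) ≤
        (({t | t ∈ Tri X ∧ X ^ θ ≤ ((t.1 + t.2 : ℕ) : ℝ)} : Set (ℕ × ℕ)).ncard : ℝ)) ∧
    (∀ ε : ℝ, 0 < ε → ∃ C : ℝ, ∀ X Y : ℝ, 1 ≤ X → 1 ≤ Y →
      ((TriY X Y).ncard : ℝ) ≤ C * X ^ (1 / 2 + ε) * Y ^ (1 / 2 : ℝ)) ∧
    ∃ c X₀ : ℝ, 0 < c ∧ ∀ X Y : ℝ, X₀ ≤ X → 1 ≤ Y → Y ≤ X ^ (1 / 3 : ℝ) →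
      c * (X * Y) ^ (1 / 2 : ℝ) ≤ ((TriY X Y).ncard : ℝ) :=
  ⟨Pool.ASY.part1, Pool.LDV2.partL, Pool.ASY.part4⟩

end Pool.Agent.H10.LDV2.Tbr
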