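import Pool.Agent.H10.LDV2.T47
import Pool.Agent.H46.EXC.All

/-! # The clause of `TriplesByRadical`: large deviations of the height -/

set_option autoImplicit false

namespace Pool.LDV2

open Pool.ASY

theorem partL :
    (∀ θ ε : ℝ, 1 / 3 ≤ θ → 0 < ε → ∃ C : ℝ, ∀ X : ℝ, 1 ≤ X →
      (({t | t ∈ Pool.VIO.Tri X ∧ (Rd t : ℝ) ^ θ ≤ ((t.1 + t.2 : ℕ) : ℝ)} :
        Set (ℕ × ℕ)).ncard : ℝ) ≤ C * X ^ (max (1 - θ) (4 / 7) + ε)) ∧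
    ∀ θ : ℝ, 1 / 3 ≤ θ → θ < 1 → ∃ c X₀ : ℝ, 0 < c ∧ ∀ X : ℝ, X₀ ≤ X →
      c * X ^ (1 - θ) ≤ (({t | t ∈ Pool.VIO.Tri X ∧ X ^ θ ≤ ((t.1 + t.2 : ℕ) : ℝ)} :
        Set (ℕ × ℕ)).ncard : ℝ) :=
  ⟨Pool.LDV.Final.upper (by norm_num) lr47 Pool.EXC.all_XFI,
    Pool.LDV.Final.lower Pool.LDV.all_LOW⟩

end Pool.LDV2
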