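import Pool.Agent.H21.LPT.Check
import Pool.Agent.H10.LDV2.Stmts2

/-!
# LDV2: a verified checker for the trees of the label system
-/

set_option autoImplicit false

namespace Pool.LDV2.Tree

open Finset Pool.LPT Pool.LDV2

/-! ## Checker -/

/-- base of the multipliers -/
def bs : ℕ := 1099511627776

/-- combination of the constraints with the digits of `c` -/
def cmb : List (Bool × List ℤ) → ℕ → Bool × List ℤ
  | [], _ => (false, [])
  | (s, l) :: E, c =>
    if c = 0 then (false, [])
    else if c % bs = 0 then cmb E (c / bs)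
    else ((cmb E (c / bs)).1 || s, ladd (lmul (c % bs : ℕ) l) (cmb E (c / bs)).2)

/-- all entries are nonpositive -/
def npos : List ℤ → Bool
  | [] => true
  | a :: l => decide (a ≤ 0) && npos l

/-- Farkas test for nonnegative variables -/
def far (E : List (Bool × List ℤ)) (c : ℕ) : Bool :=
  match cmb E c with
  | (_, []) => false
  | (s, h :: l) => npos l && (decide (h < 0) || (decide (h ≤ 0) && s))

/-- trees: leaf, node (tool and list of children), list of children -/
inductive Q : Type
  | l (c : ℕ) : Q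
  | n (k : ℕ) (b : Q) : Q
  | o (a b : Q) : Q
  | z : Q

/-- the checker -/
def chk (T : List (List (List ℤ))) : Q → List (Bool × List ℤ) → Option (List (List ℤ)) → Bool
  | .l c, E, none => far E c
  | .n k b, E, none => decide (k < T.length) && chk T b E (some (T.getD k []))
  | .o a b, E, some (p :: ps) => chk T a ((true, p) :: E) none && chk T b E (some ps)
  | .z, _, some [] => true
  | _, _, _ => false

lemma cmb_sound (x : ℕ → ℝ) (E : List (Bool × List ℤ)) : ∀ c : ℕ, (∀ e ∈ E, holds e x) →
    0 ≤ ev (cmb E c).2 x ∧ ((cmb E c).1 = true → 0 < ev (cmb E c).2 x) := by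
  induction E with
  | nil => intro c _; simp [cmb, ev]
  | cons e E ih =>
    obtain ⟨s, l⟩ := e
    intro c hE
    have hE' : ∀ e ∈ E, holds e x := fun e he => hE e (List.mem_cons_of_mem _ he)
    have h0 : holds (s, l) x := hE _ List.mem_cons_self
    unfold cmb
    split_ifs with h1 h2
    · simp [ev]
    · exact ih _ hE'
    · obtain ⟨i1, i2⟩ := ih (c / bs) hE'
      have hk : (0 : ℝ) < (((c % bs : ℕ) : ℤ) : ℝ) := by
        have : 0 < c % bs := Nat.pos_of_ne_zero h2
        exact_mod_cast this
      have hl : 0 ≤ ev l x := holds_nonneg h0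
      simp only [ev_ladd, ev_lmul]
      refine ⟨by positivity, fun hs => ?_⟩
      rw [Bool.or_eq_true] at hs
      rcases hs with hs | hs
      · have := i2 hs
        positivity
      · have h3 : 0 < ev l x := by
          unfold holds at h0
          simpa [hs] using h0
        positivity

lemma npos_sound (l : List ℤ) : npos l = true → ∀ x : ℕ → ℝ, (∀ n, 0 ≤ x n) → ev l x ≤ 0 := by
  induction l with
  | nil => intro _ x _; simp [ev]
  | cons a l ih =>
    intro h x hx
    simp only [npos, Bool.and_eq_true, decide_eq_true_eq] at h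
    have h1 := ih h.2 (fun n => x (n + 1)) (fun n => hx _)
    have h2 : (a : ℝ) * x 0 ≤ 0 := mul_nonpos_of_nonpos_of_nonneg (by exact_mod_cast h.1) (hx 0)
    simp only [ev]
    linarith

lemma far_sound (x : ℕ → ℝ) (hx : x 0 = 1) (hn : ∀ n, 0 ≤ x n) (E : List (Bool × List ℤ)) (c : ℕ)
    (hE : ∀ e ∈ E, holds e x) (h : far E c = true) : False := by
  obtain ⟨i1, i2⟩ := cmb_sound x E c hE
  unfold far at h
  rcases hc : cmb E c with ⟨s, l⟩
  rw [hc] at h i1 i2
  cases l with
  | nil => simp at h
  | cons a l =>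
    simp only [Bool.and_eq_true, Bool.or_eq_true, decide_eq_true_eq] at h
    obtain ⟨h1, h2⟩ := h
    have h3 : ev (a :: l) x ≤ a := by
      have := npos_sound l h1 (fun n => x (n + 1)) (fun n => hn _)
      simp only [ev, hx]
      linarith
    simp only at i1 i2
    rcases h2 with h2 | ⟨h2, h4⟩
    · have : ((a : ℤ) : ℝ) < 0 := by exact_mod_cast h2
      linarith
    · have h5 := i2 h4
      have : ((a : ℤ) : ℝ) ≤ 0 := by exact_mod_cast h2
      linarith

lemma chk_sound (T : List (List (List ℤ))) (x : ℕ → ℝ) (hx : x 0 = 1) (hn : ∀ n, 0 ≤ x n)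
    (hT : ∀ P ∈ T, ∃ p ∈ P, 0 < ev p x) (t : Q) :
    (∀ E : List (Bool × List ℤ), (∀ e ∈ E, holds e x) → chk T t E none = true → False) ∧
    ∀ (E : List (Bool × List ℤ)) (P : List (List ℤ)), (∀ e ∈ E, holds e x) →
      (∃ p ∈ P, 0 < ev p x) → chk T t E (some P) = true → False := by
  induction t with
  | l c =>
    refine ⟨fun E hE h => ?_, fun E P hE hP h => ?_⟩
    · exact far_sound x hx hn E c hE (by simpa [chk] using h)
    · simp [chk] at h
  | n k b ih =>
    refine ⟨fun E hE h => ?_, fun E P hE hP h => ?_⟩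
    · simp only [chk, Bool.and_eq_true, decide_eq_true_eq] at h
      refine ih.2 E _ hE (hT _ ?_) h.2
      rw [List.getD_eq_getElem _ _ h.1]
      exact List.getElem_mem _
    · simp [chk] at h
  | o a b iha ihb =>
    refine ⟨fun E hE h => ?_, fun E P hE hP h => ?_⟩
    · simp [chk] at h
    · cases P with
      | nil => simp [chk] at h
      | cons p ps =>
        simp only [chk, Bool.and_eq_true] at h
        by_cases hp : 0 < ev p x
        · refine iha.1 _ ?_ h.1
          intro e he
          rcases List.mem_cons.1 he with he | he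
          · rw [he]; simpa [holds] using hp
          · exact hE e he
        · refine ihb.2 E ps hE ?_ h.2
          obtain ⟨q, hq, hq2⟩ := hP
          rcases List.mem_cons.1 hq with hq | hq
          · rw [hq] at hq2; exact absurd hq2 hp
          · exact ⟨q, hq, hq2⟩
  | z =>
    refine ⟨fun E hE h => ?_, fun E P hE hP h => ?_⟩
    · simp [chk] at h
    · cases P with
      | nil => obtain ⟨p, hp, -⟩ := hP; simp at hp
      | cons p ps => simp [chk] at h

/-! ## Forms of the label system -/

/-- unit form -/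
def un : ℕ → List ℤ
  | 0 => [1]
  | n + 1 => 0 :: un n

lemma ev_un (n : ℕ) : ∀ x : ℕ → ℝ, ev (un n) x = x n := by
  induction n with
  | zero => intro x; simp [un, ev]
  | succ n ih => intro x; simp [un, ev, ih]

/-- place of a cost -/
def cs (l n : ℕ) : ℕ := 2 + 9 * l + (if n ≤ 5 then n - 1 else if n = 8 then 5 else 6)

/-- place of the gain of the label `8` or `9` -/
def gs (l n : ℕ) : ℕ := 2 + 9 * l + (if n = 8 then 7 else 8)

/-- the coordinate -/
def fi (l : ℕ) : Fin 3 := if l = 0 then 0 else if l = 1 then 1 else 2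

/-- the point -/
noncomputable def xv (m : ℝ) (c g : Fin 3 → ℕ → ℝ) (t : ℕ) : ℝ :=
  if t = 0 then 1 else if t = 1 then m else
    if (t - 2) % 9 ≤ 4 then c (fi ((t - 2) / 9)) ((t - 2) % 9 + 1) else
    if (t - 2) % 9 = 5 then c (fi ((t - 2) / 9)) 8 else
    if (t - 2) % 9 = 6 then c (fi ((t - 2) / 9)) 9 else
    if (t - 2) % 9 = 7 then g (fi ((t - 2) / 9)) 8 else g (fi ((t - 2) / 9)) 9

/-- label -/
def lab (E n : ℕ) : Bool := (decide (1 ≤ n) && decide (n ≤ E)) || n == 8 || n == 9

/-- cost of a list of labels -/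
def cF (l : ℕ) : List ℕ → List ℤ
  | [] => []
  | n :: K => ladd (un (cs l n)) (cF l K)

/-- gain of a list of labels -/
def gF (E l : ℕ) : List ℕ → List ℤ
  | [] => []
  | n :: K => ladd (if n ≤ E then lmul n (un (cs l n)) else un (gs l n)) (gF E l K)

/-- total cost -/
def xF (E l : ℕ) : List ℤ := cF l (List.range' 1 E ++ [8, 9])

/-- the pieces of `80 Phi4` -/
def phis (X G : List ℤ) : List (List ℤ) :=
  [lmul 80 X, ladd (lmul 108 X) (lmul (-14) G), ladd (lmul 146 X) (lmul (-52) G),
    ladd (lmul 160 X) (lmul (-80) G)]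

/-- tools -/
inductive D : Type
  | C (i : ℕ) (K : List ℕ) : D
  | L (i : ℕ) (K : List ℕ) (e : ℕ) : D
  | R (l e : ℕ) : D
  | K (i : ℕ) (B K : List ℕ) (d : ℕ) (o : Bool) : D
  | N : D
  | F (i e f : ℕ) : D

/-- pieces of a tool, `T = u / v` -/
def pcs (E : ℕ) (u v : ℤ) : D → List (List ℤ)
  | .C i K => (phis (xF E ((i + 1) % 3)) (gF E i K)).flatMap fun a =>
      (phis (xF E ((i + 2) % 3)) (gF E i K)).map fun b =>
        ladd (lmul v (ladd (lmul 160 (cF i K)) (ladd a b))) [-160 * u]
  | .L i K e =>
      let j := (i + 1) % 3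
      let k := (i + 2) % 3
      let b := ladd (cF i K) (ladd (ladd (xF E j) (lmul (-1) (un (cs j e))))
        (ladd (xF E k) (lmul (-1) (un (cs k e)))))
      [ladd (lmul v b) [-u],
        ladd (lmul v (ladd b (ladd (un (cs j e)) (ladd (un (cs k e)) (lmul (-1) (gF E i K))))))
          [-u]]
  | .R l e =>
      let b := ladd (xF E 1) (xF E 2)
      [ladd (lmul v (ladd b (lmul (-1) (un (cs l e))))) [-u],
        ladd (lmul v (ladd b (ladd (lmul (-1) (un 1)) (gF E 0 (List.range' 1 E ++ [8, 9])))))
          [-u]]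
  | .K i B K _ o =>
      let j := (i + if o then 2 else 1) % 3
      let k := (i + if o then 1 else 2) % 3
      ladd (lmul v (ladd (cF i K) (xF E k))) [-u] ::
        (phis (xF E j) (gF E i K)).map fun a =>
          ladd (lmul v (ladd (lmul 160 (ladd (xF E i) (lmul (-1) (cF i B))))
            (ladd a (lmul 80 (xF E k))))) [-160 * u]
  | .N =>
      let b := ladd (ladd (xF E 0) (lmul (-1) (un (cs 0 2)))) (ladd (ladd (xF E 1)
        (lmul (-1) (un (cs 1 2)))) (ladd (xF E 2) (lmul (-1) (un (cs 2 2)))))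
      [ladd (lmul v b) [-u],
        ladd (lmul v (ladd b (ladd (un (cs 0 2)) (ladd (un (cs 1 2)) (ladd (un (cs 2 2))
          (lmul (-1) (un 1))))))) [-u]]
  | .F i e f =>
      let j := (i + 1) % 3
      let k := (i + 2) % 3
      [ladd (lmul v (ladd (xF E i) (ladd (ladd (lmul 2 (xF E j)) (lmul (-1) (un (cs j e))))
        (ladd (lmul 2 (xF E k)) (lmul (-1) (un (cs k f))))))) [-2 * u]]

/-- list of different labels -/
def okl (E : ℕ) : List ℕ → Bool
  | [] => true
  | n :: K => lab E n && !(K.contains n) && okl E K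

/-- disjoint lists -/
def dis : List ℕ → List ℕ → Bool
  | [], _ => true
  | n :: K, L => !(L.contains n) && dis K L

/-- validity of a tool -/
def val (E : ℕ) : D → Bool
  | .C i K => decide (i < 3) && okl E K
  | .L i K e => decide (i < 3) && okl E K && decide (1 ≤ e) && decide (e ≤ E)
  | .R l e => (l == 1 || l == 2) && (e == 8 || (decide (1 ≤ e) && decide (e ≤ E)))
  | .K i B K d _ => decide (i < 3) && decide (2 ≤ d) && okl E K && okl E B && dis B K &&
      (B == [8] || B.all fun n => decide (n ≤ E) && decide (n % d = 0))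
  | .N => decide (2 ≤ E)
  | .F i e f => decide (i < 3) && (e == 8 || (decide (2 ≤ e) && decide (e ≤ E))) &&
      (f == 8 || (decide (2 ≤ f) && decide (f ≤ E)))

/-- root constraints; `B` = the coordinates with a big layer; `T = u / v`, `h = p / q` -/
def rt (E : ℕ) (u v p q : ℤ) (B : List ℕ) : List (Bool × List ℤ) :=
  [(false, ladd (lmul v (un 1)) [-u]),
    (false, ladd [1] (lmul (-1) (ladd (xF E 0) (ladd (xF E 1) (xF E 2)))))] ++
  [0, 1, 2].map (fun l => (true, ladd (lmul v (ladd (xF E ((l + 1) % 3)) (xF E ((l + 2) % 3))))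
    [-u])) ++
  [0, 1, 2].map (fun l => (false, ladd (un 1) (lmul (-1) (gF E l (List.range' 1 E ++ [8, 9]))))) ++
  [1, 2].map (fun l => (false, ladd (gF E l (List.range' 1 E ++ [8, 9])) (lmul (-1) (un 1)))) ++
  [0, 1, 2].map (fun l => (false, ladd (un (gs l 9)) (lmul (-(E + 1)) (un (cs l 9))))) ++
  [0, 1, 2].map (fun l => (false, ladd [p] (lmul (-q) (un (cs l 9))))) ++
  [0, 1, 2].flatMap (fun l => if B.contains l then
    [(true, ladd (lmul (2 * v) (un (cs l 8))) (ladd [v - 2 * u] (lmul (-v) (xF E l)))),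
      (false, ladd (un (gs l 8)) (lmul (-(E + 1)) (un (cs l 8))))]
    else [(false, lmul (-1) (un (cs l 8))), (false, lmul (-1) (un (gs l 8)))])

end Pool.LDV2.Tree
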