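import Pool.Agent.H10.LDV2.Tree

/-!
# LDV2: soundness of the forms of the label system
-/

set_option autoImplicit false

namespace Pool.LDV2.Tree

open Finset Pool.LPT Pool.LDV2

variable {m : ℝ} {c g : Fin 3 → ℕ → ℝ} {x : Fin 3 → ℝ}

lemma fi_mod (l : ℕ) (hl : l < 3) : (fi l : ℕ) = l := by
  interval_cases l <;> rfl

lemma xv_zero : xv m c g 0 = 1 := by simp [xv]

lemma xv_one : xv m c g 1 = m := by simp [xv]

lemma xv_cs (l n : ℕ) (hl : l < 3) (hn : (1 ≤ n ∧ n ≤ 5) ∨ n = 8 ∨ n = 9) :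
    xv m c g (cs l n) = c (fi l) n := by
  rcases hn with ⟨h1, h2⟩ | rfl | rfl
  · interval_cases l <;> interval_cases n <;> simp [xv, cs]
  · interval_cases l <;> simp [xv, cs]
  · interval_cases l <;> simp [xv, cs]

lemma xv_gs (l n : ℕ) (hl : l < 3) (hn : n = 8 ∨ n = 9) :
    xv m c g (gs l n) = g (fi l) n := by
  rcases hn with rfl | rfl
  · interval_cases l <;> simp [xv, gs]
  · interval_cases l <;> simp [xv, gs]

lemma xv_nonneg (hm : 0 ≤ m) (hc : ∀ l n, 0 ≤ c l n) (hg : ∀ l n, 0 ≤ g l n) (t : ℕ) :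
    0 ≤ xv m c g t := by
  unfold xv
  split_ifs
  · norm_num
  · exact hm
  · exact hc _ _
  · exact hc _ _
  · exact hc _ _
  · exact hg _ _
  · exact hg _ _

lemma lab_sound {E n : ℕ} (hE : E ≤ 5) (h : lab E n = true) :
    ((1 ≤ n ∧ n ≤ 5) ∨ n = 8 ∨ n = 9) ∧ n ∈ labs E ∧ (n ≤ E ∧ 1 ≤ n ∨ n = 8 ∨ n = 9) := by
  simp only [lab, Bool.or_eq_true, Bool.and_eq_true, decide_eq_true_eq, beq_iff_eq] at h
  unfold labs
  rcases h with (h | h) | h
  · refine ⟨Or.inl ⟨h.1, h.2.trans hE⟩, ?_, Or.inl ⟨h.2, h.1⟩⟩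
    simp [h.1, h.2]
  · subst h; simp
  · subst h; simp

lemma okl_sound {E : ℕ} (K : List ℕ) : okl E K = true → K.Nodup ∧ ∀ n ∈ K, lab E n = true := by
  induction K with
  | nil => intro _; simp
  | cons n K ih =>
    intro h
    simp only [okl, Bool.and_eq_true, Bool.not_eq_true', List.contains_eq_mem,
      decide_eq_false_iff_not] at h
    obtain ⟨⟨h1, h2⟩, h3⟩ := h
    obtain ⟨h4, h5⟩ := ih h3
    refine ⟨List.nodup_cons.2 ⟨h2, h4⟩, ?_⟩
    intro k hk
    rcases List.mem_cons.1 hk with hk | hk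
    · rw [hk]; exact h1
    · exact h5 k hk

lemma ev_cF {E l : ℕ} (hE : E ≤ 5) (hl : l < 3) (K : List ℕ) (hK : ∀ n ∈ K, lab E n = true) :
    ev (cF l K) (xv m c g) = (K.map (c (fi l))).sum := by
  induction K with
  | nil => simp [cF, ev]
  | cons n K ih =>
    rw [cF, ev_ladd, ev_un, ih fun k hk => hK k (List.mem_cons_of_mem _ hk),
      xv_cs l n hl (lab_sound hE (hK n List.mem_cons_self)).1]
    simp

lemma ev_gF {E l : ℕ} (hE : E ≤ 5) (hl : l < 3)
    (hge : ∀ l, ∀ n ∈ Icc 1 E, g l n = (n : ℝ) * c l n) (K : List ℕ)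
    (hK : ∀ n ∈ K, lab E n = true) :
    ev (gF E l K) (xv m c g) = (K.map (g (fi l))).sum := by
  induction K with
  | nil => simp [gF, ev]
  | cons n K ih =>
    rw [gF, ev_ladd, ih fun k hk => hK k (List.mem_cons_of_mem _ hk)]
    obtain ⟨h1, -, h2⟩ := lab_sound hE (hK n List.mem_cons_self)
    simp only [List.map_cons, List.sum_cons]
    congr 1
    rcases h2 with h2 | h2 | h2
    · rw [if_pos h2.1, ev_lmul, ev_un, xv_cs l n hl h1, hge (fi l) n (mem_Icc.2 ⟨h2.2, h2.1⟩)]
      push_cast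
      ring
    · rw [if_neg (by omega), ev_un, xv_gs l n hl (Or.inl h2)]
    · rw [if_neg (by omega), ev_un, xv_gs l n hl (Or.inr h2)]

lemma sum_fs (f : ℕ → ℝ) (K : List ℕ) (hK : K.Nodup) : ∑ n ∈ K.toFinset, f n = (K.map f).sum :=
  List.sum_toFinset f hK

lemma all_lab {E : ℕ} : ∀ n ∈ List.range' 1 E ++ [8, 9], lab E n = true := by
  intro n hn
  rw [List.mem_append, List.mem_range'_1] at hn
  simp only [lab, Bool.or_eq_true, Bool.and_eq_true, decide_eq_true_eq, beq_iff_eq]
  rcases hn with h | h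
  · exact Or.inl (Or.inl ⟨h.1, by omega⟩)
  · simp only [List.mem_cons, List.not_mem_nil, or_false] at h
    rcases h with h | h
    · exact Or.inl (Or.inr h)
    · exact Or.inr h

lemma sum_all {E : ℕ} (f : ℕ → ℝ) :
    ((List.range' 1 E ++ [8, 9]).map f).sum = ∑ n ∈ Icc 1 E, f n + f 8 + f 9 := by
  rw [List.map_append, List.sum_append]
  have h1 : ((List.range' 1 E).map f).sum = ∑ n ∈ Icc 1 E, f n := by
    have h2 : (List.range' 1 E).toFinset = Icc 1 E := by
      ext n
      rw [List.mem_toFinset, List.mem_range'_1, mem_Icc]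
      omega
    rw [← h2, List.sum_toFinset f (List.nodup_range')]
  rw [h1]
  simp
  ring

section
variable {E : ℕ} {T h : ℝ}

lemma ev_xF (H : LS E T h m c g x) (hE : E ≤ 5) {l : ℕ} (hl : l < 3) :
    ev (xF E l) (xv m c g) = x (fi l) := by
  rw [xF, ev_cF hE hl _ all_lab, sum_all, H.hx]

lemma ev_GF (H : LS E T h m c g x) (hE : E ≤ 5) {l : ℕ} (hl : l < 3) :
    ev (gF E l (List.range' 1 E ++ [8, 9])) (xv m c g) =
      ∑ n ∈ Icc 1 E, g (fi l) n + g (fi l) 8 + g (fi l) 9 := by
  rw [ev_gF hE hl H.ge _ all_lab, sum_all]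

lemma phi4_cases (a b : ℝ) : Phi4 a b = a ∨ Phi4 a b = 27 * a / 20 - 7 * b / 40 ∨
    Phi4 a b = 73 * a / 40 - 13 * b / 20 ∨ Phi4 a b = 2 * a - b := by
  unfold Phi4
  rcases max_choice a (max (27 * a / 20 - 7 * b / 40) (max (73 * a / 40 - 13 * b / 20)
    (2 * a - b))) with h | h
  · exact Or.inl h
  rw [h]
  rcases max_choice (27 * a / 20 - 7 * b / 40) (max (73 * a / 40 - 13 * b / 20)
    (2 * a - b)) with h | h
  · exact Or.inr (Or.inl h)
  rw [h]
  rcases max_choice (73 * a / 40 - 13 * b / 20) (2 * a - b) with h | h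
  · exact Or.inr (Or.inr (Or.inl h))
  · exact Or.inr (Or.inr (Or.inr h))

lemma phis_ex (X G : List ℤ) (y : ℕ → ℝ) : ∃ a ∈ phis X G, ev a y = 80 * Phi4 (ev X y) (ev G y) := by
  unfold phis
  rcases phi4_cases (ev X y) (ev G y) with h | h | h | h
  · refine ⟨_, List.mem_cons_self, ?_⟩
    rw [h, ev_lmul]; push_cast; ring
  · refine ⟨_, List.mem_cons_of_mem _ List.mem_cons_self, ?_⟩
    rw [h, ev_ladd, ev_lmul, ev_lmul]; push_cast; ring
  · refine ⟨_, List.mem_cons_of_mem _ (List.mem_cons_of_mem _ List.mem_cons_self), ?_⟩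
    rw [h, ev_ladd, ev_lmul, ev_lmul]; push_cast; ring
  · refine ⟨_, List.mem_cons_of_mem _ (List.mem_cons_of_mem _ (List.mem_cons_of_mem _
      List.mem_cons_self)), ?_⟩
    rw [h, ev_ladd, ev_lmul, ev_lmul]; push_cast; ring

lemma fi_ne {i j : ℕ} (hi : i < 3) (hj : j < 3) (h : i ≠ j) : fi i ≠ fi j := by
  intro h'
  apply h
  rw [← fi_mod i hi, ← fi_mod j hj, h']

lemma ev_con (a : ℤ) : ev [a] (xv m c g) = a := by simp [ev, xv_zero]

lemma sub_labs (hE : E ≤ 5) {K : List ℕ} (hK : ∀ n ∈ K, lab E n = true) : K.toFinset ⊆ labs E := by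
  intro n hn
  exact (lab_sound hE (hK n (List.mem_toFinset.1 hn))).2.1

/-- every valid tool has a positive piece -/
theorem pcs_sound {u v : ℤ} (hv : 0 < v) (hT : T = u / v) (H : LS E T h m c g x) (hE2 : 2 ≤ E)
    (hE : E ≤ 5) (d : D) (hd : val E d = true) : ∃ p ∈ pcs E u v d, 0 < ev p (xv m c g) := by
  have v0 : (0 : ℝ) < v := by exact_mod_cast hv
  have hvT : (v : ℝ) * T = u := by rw [hT]; field_simp
  cases d with
  | C i K =>
    simp only [val, Bool.and_eq_true, decide_eq_true_eq] at hd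
    obtain ⟨hi, hK⟩ := hd
    obtain ⟨hn, hl⟩ := okl_sound K hK
    have hj : (i + 1) % 3 < 3 := Nat.mod_lt _ (by norm_num)
    have hk : (i + 2) % 3 < 3 := Nat.mod_lt _ (by norm_num)
    have h1 := H.C (fi i) (fi ((i + 1) % 3)) (fi ((i + 2) % 3)) K.toFinset
      (fi_ne hi hj (by omega)) (fi_ne hi hk (by omega)) (fi_ne hj hk (by omega)) (sub_labs hE hl)
    rw [sum_fs _ K hn, sum_fs _ K hn, ← ev_cF (m := m) (g := g) hE hi K hl,
      ← ev_gF (m := m) hE hi H.ge K hl, ← ev_xF H hE hj, ← ev_xF H hE hk] at h1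
    obtain ⟨a, ha, ha2⟩ := phis_ex (xF E ((i + 1) % 3)) (gF E i K) (xv m c g)
    obtain ⟨b, hb, hb2⟩ := phis_ex (xF E ((i + 2) % 3)) (gF E i K) (xv m c g)
    refine ⟨ladd (lmul v (ladd (lmul 160 (cF i K)) (ladd a b))) [-160 * u], ?_, ?_⟩
    · simp only [pcs, List.mem_flatMap, List.mem_map]
      exact ⟨a, ha, b, hb, rfl⟩
    · rw [ev_ladd, ev_lmul, ev_ladd, ev_lmul, ev_ladd, ha2, hb2, ev_con]
      push_cast
      nlinarith [mul_lt_mul_of_pos_left h1 v0]
  | L i K e =>
    simp only [val, Bool.and_eq_true, decide_eq_true_eq] at hd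
    obtain ⟨⟨⟨hi, hK⟩, he1⟩, he2⟩ := hd
    obtain ⟨hn, hl⟩ := okl_sound K hK
    have hj : (i + 1) % 3 < 3 := Nat.mod_lt _ (by norm_num)
    have hk : (i + 2) % 3 < 3 := Nat.mod_lt _ (by norm_num)
    have h1 := H.L (fi i) (fi ((i + 1) % 3)) (fi ((i + 2) % 3)) K.toFinset e
      (fi_ne hi hj (by omega)) (fi_ne hi hk (by omega)) (fi_ne hj hk (by omega)) (sub_labs hE hl)
      (mem_Icc.2 ⟨he1, he2⟩)
    have hee : (1 ≤ e ∧ e ≤ 5) ∨ e = 8 ∨ e = 9 := Or.inl ⟨he1, he2.trans hE⟩
    rw [sum_fs _ K hn, sum_fs _ K hn, ← ev_cF (m := m) (g := g) hE hi K hl,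
      ← ev_gF (m := m) hE hi H.ge K hl, ← ev_xF H hE hj, ← ev_xF H hE hk,
      ← xv_cs (m := m) (c := c) (g := g) _ e hj hee, ← xv_cs (m := m) (c := c) (g := g) _ e hk hee] at h1
    rcases le_total (xv m c g (cs ((i + 1) % 3) e) + xv m c g (cs ((i + 2) % 3) e) -
      ev (gF E i K) (xv m c g)) 0 with h2 | h2
    · rw [max_eq_left h2] at h1
      refine ⟨_, List.mem_cons_self, ?_⟩
      simp only [ev_ladd, ev_lmul, ev_un, ev_con]
      push_cast
      nlinarith [mul_lt_mul_of_pos_left h1 v0]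
    · rw [max_eq_right h2] at h1
      refine ⟨_, List.mem_cons_of_mem _ List.mem_cons_self, ?_⟩
      simp only [ev_ladd, ev_lmul, ev_un, ev_con]
      push_cast
      nlinarith [mul_lt_mul_of_pos_left h1 v0]
  | R l e =>
    simp only [val, Bool.and_eq_true, Bool.or_eq_true, decide_eq_true_eq, beq_iff_eq] at hd
    obtain ⟨hl, he⟩ := hd
    have hl3 : l < 3 := by omega
    have hee : (1 ≤ e ∧ e ≤ 5) ∨ e = 8 ∨ e = 9 := by omega
    have hl0 : fi l ≠ 0 := by rcases hl with rfl | rfl <;> decide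
    have h1 := H.R (fi l) e hl0 (by
      rw [mem_insert, mem_Icc]
      exact he)
    rw [← xv_cs (m := m) (c := c) (g := g) l e hl3 hee] at h1
    have e1 := ev_xF H hE (l := 1) (by norm_num)
    have e2 := ev_xF H hE (l := 2) (by norm_num)
    have e0 := ev_GF H hE (l := 0) (by norm_num)
    have f1 : fi 1 = 1 := rfl
    have f2 : fi 2 = 2 := rfl
    have f0 : fi 0 = 0 := rfl
    rw [f1] at e1
    rw [f2] at e2
    rw [f0] at e0
    rw [← e1, ← e2, ← e0] at h1
    rcases le_total (xv m c g (cs l e)) (m - ev (gF E 0 (List.range' 1 E ++ [8, 9]))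
      (xv m c g)) with h2 | h2
    · rw [min_eq_left h2] at h1
      refine ⟨_, List.mem_cons_self, ?_⟩
      simp only [ev_ladd, ev_lmul, ev_un, ev_con]
      push_cast
      nlinarith [mul_lt_mul_of_pos_left h1 v0]
    · rw [min_eq_right h2] at h1
      refine ⟨_, List.mem_cons_of_mem _ List.mem_cons_self, ?_⟩
      simp only [ev_ladd, ev_lmul, ev_un, ev_con, xv_one]
      push_cast
      nlinarith [mul_lt_mul_of_pos_left h1 v0]
  | K i B K d o =>
    simp only [val, Bool.and_eq_true, Bool.or_eq_true, decide_eq_true_eq, beq_iff_eq] at hd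
    obtain ⟨⟨⟨⟨⟨hi, hd2⟩, hK⟩, hB⟩, hdis⟩, hB8⟩ := hd
    obtain ⟨hn, hl⟩ := okl_sound K hK
    obtain ⟨hnB, hlB⟩ := okl_sound B hB
    obtain ⟨j, hjd⟩ : ∃ j : ℕ, j = (i + if o then 2 else 1) % 3 := ⟨_, rfl⟩
    obtain ⟨k, hkd⟩ : ∃ k : ℕ, k = (i + if o then 1 else 2) % 3 := ⟨_, rfl⟩
    have hj : j < 3 := hjd ▸ Nat.mod_lt _ (by norm_num)
    have hk : k < 3 := hkd ▸ Nat.mod_lt _ (by norm_num)
    have hij : i ≠ j := by rw [hjd]; split_ifs <;> omega
    have hik : i ≠ k := by rw [hkd]; split_ifs <;> omega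
    have hjk : j ≠ k := by rw [hjd, hkd]; split_ifs <;> omega
    have hdj : ∀ (B : List ℕ), dis B K = true → Disjoint B.toFinset K.toFinset := by
      intro B
      induction B with
      | nil => intro _; simp
      | cons n B ih =>
        intro hh
        simp only [dis, Bool.and_eq_true, Bool.not_eq_true', List.contains_eq_mem,
          decide_eq_false_iff_not] at hh
        rw [List.toFinset_cons, Finset.disjoint_insert_left, List.mem_toFinset]
        exact ⟨hh.1, ih hh.2⟩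
    have h1 := H.K (fi i) (fi j) (fi k) B.toFinset K.toFinset d (fi_ne hi hj hij)
      (fi_ne hi hk hik) (fi_ne hj hk hjk) hd2 (by
        rcases hB8 with h8 | h8
        · right; rw [h8]; rfl
        · left
          rw [List.all_eq_true] at h8
          refine ⟨fun n hn' => ?_, fun n hn' => ?_⟩
          · have h9 := h8 n (List.mem_toFinset.1 hn')
            simp only [Bool.and_eq_true, decide_eq_true_eq] at h9
            have h10 := (lab_sound hE (hlB n (List.mem_toFinset.1 hn'))).2.2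
            rw [mem_Icc]
            omega
          · have h9 := h8 n (List.mem_toFinset.1 hn')
            simp only [Bool.and_eq_true, decide_eq_true_eq] at h9
            exact Nat.dvd_of_mod_eq_zero h9.2) (sub_labs hE hl) (hdj B hdis)
    rw [sum_fs _ K hn, sum_fs _ K hn, sum_fs _ B hnB, ← ev_cF (m := m) (g := g) hE hi K hl,
      ← ev_cF (m := m) (g := g) hE hi B hlB,
      ← ev_gF (m := m) hE hi H.ge K hl, ← ev_xF H hE hj, ← ev_xF H hE hk, ← ev_xF H hE hi] at h1
    simp only [pcs, ← hjd, ← hkd]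
    rcases h1 with h1 | h1
    · refine ⟨_, List.mem_cons_self, ?_⟩
      simp only [ev_ladd, ev_lmul, ev_con]
      push_cast
      nlinarith [mul_lt_mul_of_pos_left h1 v0]
    · obtain ⟨a, ha, ha2⟩ := phis_ex (xF E j) (gF E i K) (xv m c g)
      refine ⟨_, List.mem_cons_of_mem _ (List.mem_map.2 ⟨a, ha, rfl⟩), ?_⟩
      simp only [ev_ladd, ev_lmul, ev_con, ha2]
      push_cast
      nlinarith [mul_lt_mul_of_pos_left h1 v0]
  | N =>
    have h1 := H.N
    rw [Fin.sum_univ_three] at h1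
    have e0 := ev_xF H hE (l := 0) (by norm_num)
    have e1 := ev_xF H hE (l := 1) (by norm_num)
    have e2 := ev_xF H hE (l := 2) (by norm_num)
    have f0 : fi 0 = 0 := rfl
    have f1 : fi 1 = 1 := rfl
    have f2 : fi 2 = 2 := rfl
    have c0 := xv_cs (m := m) (c := c) (g := g) 0 2 (by norm_num) (Or.inl ⟨by norm_num, by norm_num⟩)
    have c1 := xv_cs (m := m) (c := c) (g := g) 1 2 (by norm_num) (Or.inl ⟨by norm_num, by norm_num⟩)
    have c2 := xv_cs (m := m) (c := c) (g := g) 2 2 (by norm_num) (Or.inl ⟨by norm_num, by norm_num⟩)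
    rw [f0] at e0 c0
    rw [f1] at e1 c1
    rw [f2] at e2 c2
    rw [← e0, ← e1, ← e2, ← c0, ← c1, ← c2] at h1
    rcases le_total (xv m c g (cs 0 2) + xv m c g (cs 1 2) + xv m c g (cs 2 2) - m) 0 with h2 | h2
    · rw [max_eq_left h2] at h1
      refine ⟨_, List.mem_cons_self, ?_⟩
      simp only [ev_ladd, ev_lmul, ev_un, ev_con]
      push_cast
      nlinarith [mul_lt_mul_of_pos_left h1 v0]
    · rw [max_eq_right h2] at h1
      refine ⟨_, List.mem_cons_of_mem _ List.mem_cons_self, ?_⟩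
      simp only [ev_ladd, ev_lmul, ev_un, ev_con, xv_one]
      push_cast
      nlinarith [mul_lt_mul_of_pos_left h1 v0]
  | F i e f =>
    simp only [val, Bool.and_eq_true, Bool.or_eq_true, decide_eq_true_eq, beq_iff_eq] at hd
    obtain ⟨⟨hi, he⟩, hf⟩ := hd
    have hj : (i + 1) % 3 < 3 := Nat.mod_lt _ (by norm_num)
    have hk : (i + 2) % 3 < 3 := Nat.mod_lt _ (by norm_num)
    have hee : (1 ≤ e ∧ e ≤ 5) ∨ e = 8 ∨ e = 9 := by omega
    have hff : (1 ≤ f ∧ f ≤ 5) ∨ f = 8 ∨ f = 9 := by omega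
    have h1 := H.F (fi i) (fi ((i + 1) % 3)) (fi ((i + 2) % 3)) e f
      (fi_ne hi hj (by omega)) (fi_ne hi hk (by omega)) (fi_ne hj hk (by omega))
      (by rw [mem_insert, mem_Icc]; exact he) (by rw [mem_insert, mem_Icc]; exact hf)
    rw [← ev_xF H hE hi, ← ev_xF H hE hj, ← ev_xF H hE hk,
      ← xv_cs (m := m) (c := c) (g := g) _ e hj hee, ← xv_cs (m := m) (c := c) (g := g) _ f hk hff] at h1
    refine ⟨_, List.mem_cons_self, ?_⟩
    simp only [ev_ladd, ev_lmul, ev_un, ev_con]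
    push_cast
    nlinarith [mul_lt_mul_of_pos_left h1 v0]

/-- the root constraints hold -/
theorem rt_sound {u v p q : ℤ} (hv : 0 < v) (hT : T = u / v) (hq : 0 < q) (hh : h = p / q)
    (H : LS E T h m c g x) (hE : E ≤ 5) (B : List ℕ)
    (hB : ∀ l < 3, if B.contains l then T - 1 / 2 + x (fi l) / 2 < c (fi l) 8
      else c (fi l) 8 = 0 ∧ g (fi l) 8 = 0) :
    ∀ e ∈ rt E u v p q B, holds e (xv m c g) := by
  have v0 : (0 : ℝ) < v := by exact_mod_cast hv
  have hvT : (v : ℝ) * T = u := by rw [hT]; field_simp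
  have q0 : (0 : ℝ) < q := by exact_mod_cast hq
  have hqh : (q : ℝ) * h = p := by rw [hh]; field_simp
  have f0 : fi 0 = 0 := rfl
  have f1 : fi 1 = 1 := rfl
  have f2 : fi 2 = 2 := rfl
  have e8 : ∀ l, l < 3 → xv m c g (cs l 8) = c (fi l) 8 := fun l hl =>
    xv_cs l 8 hl (Or.inr (Or.inl rfl))
  have e9 : ∀ l, l < 3 → xv m c g (cs l 9) = c (fi l) 9 := fun l hl =>
    xv_cs l 9 hl (Or.inr (Or.inr rfl))
  have k8 : ∀ l, l < 3 → xv m c g (gs l 8) = g (fi l) 8 := fun l hl =>
    xv_gs l 8 hl (Or.inl rfl)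
  have k9 : ∀ l, l < 3 → xv m c g (gs l 9) = g (fi l) 9 := fun l hl =>
    xv_gs l 9 hl (Or.inr rfl)
  have hlt : ∀ l ∈ [0, 1, 2], l < 3 := by
    intro l hl
    simp only [List.mem_cons, List.not_mem_nil, or_false] at hl
    omega
  intro e he
  simp only [rt, List.mem_append, List.mem_map, List.mem_flatMap] at he
  rcases he with (((((((he | he) | he) | he) | he) | he) | he)) 
  · simp only [List.mem_cons, List.not_mem_nil, or_false] at he
    rcases he with rfl | rfl
    · simp only [holds, ev_ladd, ev_lmul, ev_un, ev_con, xv_one, Bool.false_eq_true, if_false]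
      push_cast
      have := mul_le_mul_of_nonneg_left H.hm v0.le
      linarith
    · simp only [holds, ev_ladd, ev_lmul, ev_con, Bool.false_eq_true, if_false]
      rw [ev_xF H hE (by norm_num), ev_xF H hE (by norm_num), ev_xF H hE (by norm_num), f0, f1, f2]
      push_cast
      have := H.hs
      linarith
  · obtain ⟨l, hl, rfl⟩ := he
    have hj : (l + 1) % 3 < 3 := Nat.mod_lt _ (by norm_num)
    have hk : (l + 2) % 3 < 3 := Nat.mod_lt _ (by norm_num)
    have hl3 := hlt l hl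
    simp only [holds, ev_ladd, ev_lmul, ev_con, if_true]
    rw [ev_xF H hE hj, ev_xF H hE hk]
    have h1 := H.ht (fi ((l + 1) % 3)) (fi ((l + 2) % 3)) (fi_ne hj hk (by omega))
    push_cast
    nlinarith [mul_lt_mul_of_pos_left h1 v0]
  · obtain ⟨l, hl, rfl⟩ := he
    simp only [holds, ev_ladd, ev_lmul, ev_un, xv_one, Bool.false_eq_true, if_false]
    rw [ev_GF H hE (hlt l hl)]
    have := H.G0 (fi l)
    push_cast
    linarith
  · obtain ⟨l, hl, rfl⟩ := he
    have hl3 : l < 3 := by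
      simp only [List.mem_cons, List.not_mem_nil, or_false] at hl
      omega
    have hl0 : fi l ≠ 0 := by
      simp only [List.mem_cons, List.not_mem_nil, or_false] at hl
      rcases hl with rfl | rfl <;> decide
    simp only [holds, ev_ladd, ev_lmul, ev_un, xv_one, Bool.false_eq_true, if_false]
    rw [ev_GF H hE hl3]
    have := H.G1 (fi l) hl0
    push_cast
    linarith
  · obtain ⟨l, hl, rfl⟩ := he
    simp only [holds, ev_ladd, ev_lmul, ev_un, Bool.false_eq_true, if_false]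
    rw [k9 l (hlt l hl), e9 l (hlt l hl)]
    have := H.g9 (fi l)
    push_cast
    linarith
  · obtain ⟨l, hl, rfl⟩ := he
    simp only [holds, ev_ladd, ev_lmul, ev_un, ev_con, Bool.false_eq_true, if_false]
    rw [e9 l (hlt l hl)]
    have := mul_le_mul_of_nonneg_left (H.h9 (fi l)) q0.le
    push_cast
    linarith
  · obtain ⟨l, hl, he⟩ := he
    have hl3 := hlt l hl
    have h1 := hB l hl3
    by_cases hc : B.contains l = true
    · rw [if_pos hc] at h1 he
      simp only [List.mem_cons, List.not_mem_nil, or_false] at he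
      rcases he with rfl | rfl
      · simp only [holds, ev_ladd, ev_lmul, ev_un, ev_con, if_true]
        rw [ev_xF H hE hl3, e8 l hl3]
        push_cast
        nlinarith [mul_lt_mul_of_pos_left h1 v0]
      · simp only [holds, ev_ladd, ev_lmul, ev_un, Bool.false_eq_true, if_false]
        rw [e8 l hl3, k8 l hl3]
        have := H.g8 (fi l)
        push_cast
        linarith
    · rw [if_neg hc] at h1 he
      simp only [List.mem_cons, List.not_mem_nil, or_false] at he
      rcases he with rfl | rfl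
      · simp only [holds, ev_lmul, ev_un, Bool.false_eq_true, if_false]
        rw [e8 l hl3, h1.1]
        simp
      · simp only [holds, ev_lmul, ev_un, Bool.false_eq_true, if_false]
        rw [k8 l hl3, h1.2]
        simp

/-- SOUNDNESS: one tree for each set of coordinates with a big layer -/
theorem lpg_of {u v p q : ℤ} (hv : 0 < v) (hT : T = u / v) (hq : 0 < q) (hh : h = p / q)
    (hT0 : 0 ≤ T) (hE2 : 2 ≤ E) (hE : E ≤ 5) (ds : List D) (hds : ds.all (val E) = true)
    (P : List (List (List ℤ))) (hP : ds.map (pcs E u v) = P)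
    (hQ : ∀ B ∈ [[], [0], [1], [2], [0, 1], [0, 2], [1, 2], [0, 1, 2]],
      ∃ t : Q, chk P t (rt E u v p q B) none = true) : S_LPG E T h := by
  intro m c g x H
  have hm : 0 ≤ m := hT0.trans H.hm
  have hTl : ∀ R ∈ P, ∃ r ∈ R, 0 < ev r (xv m c g) := by
    intro R hR
    rw [← hP, List.mem_map] at hR
    obtain ⟨d, hd, rfl⟩ := hR
    rw [List.all_eq_true] at hds
    exact pcs_sound hv hT H hE2 hE d (hds d hd)
  have key : ∀ B ∈ [[], [0], [1], [2], [0, 1], [0, 2], [1, 2], [0, 1, 2]],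
      (∀ l < 3, if B.contains l then T - 1 / 2 + x (fi l) / 2 < c (fi l) 8
        else c (fi l) 8 = 0 ∧ g (fi l) 8 = 0) → False := by
    intro B hB hB2
    obtain ⟨t, ht⟩ := hQ B hB
    exact (chk_sound P (xv m c g) xv_zero (xv_nonneg hm H.hc H.hg) hTl t).1 _
      (rt_sound hv hT hq hh H hE B hB2) ht
  have f0 : fi 0 = 0 := rfl
  have f1 : fi 1 = 1 := rfl
  have f2 : fi 2 = 2 := rfl
  rcases H.hb 0 with h0 | h0 <;> rcases H.hb 1 with h1 | h1 <;> rcases H.hb 2 with h2 | h2
  · refine key [] (by decide) ?_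
    intro l hl
    interval_cases l <;> simp_all
  · refine key [2] (by decide) ?_
    intro l hl
    interval_cases l <;> simp_all
  · refine key [1] (by decide) ?_
    intro l hl
    interval_cases l <;> simp_all
  · refine key [1, 2] (by decide) ?_
    intro l hl
    interval_cases l <;> simp_all
  · refine key [0] (by decide) ?_
    intro l hl
    interval_cases l <;> simp_all
  · refine key [0, 2] (by decide) ?_
    intro l hl
    interval_cases l <;> simp_all
  · refine key [0, 1] (by decide) ?_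
    intro l hl
    interval_cases l <;> simp_all
  · refine key [0, 1, 2] (by decide) ?_
    intro l hl
    interval_cases l <;> simp_all

end

end Pool.LDV2.Tree
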